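import Pool.Agent.Q17.ET.Mul

/-!
# The Erdős–Turán problem (MP_12a1af_nt): quantitative growth for bases with many multipliers

Let `A` be a set of positive integers, `h ≥ 2`, and let `mult A = {m | m A ⊆ A}` be its set of
multipliers. If every large integer is a sum of `h` elements of `A`, and `A` is closed under
multiplication, or more generally contained in a finite union of dilates of `mult A`, then the number
of ordered representations of `n` as a sum of `h` elements of `A` is at least `c √(log n)` for
infinitely many `n`.

Proof. Let `m` be a large multiplier, `m = x_1 + ... + x_h` with the smallest summand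
`x_1 ≤ m / 2`. Call `x_1 / m` the ratio of `m`. Multipliers with `R` different ratios, up to `X`,
have a product `P ≤ X ^ R` with `R` different representations. On the other hand `x_1 = c m'` with a
smaller multiplier `m'`, and `m / m' ≥ 2` takes at most `|C| R` values; so all multipliers up to `X`
are products of numbers of a set of at most `|C| R` reals `≥ 2` with bounded numbers, and the Euler
product for the sum of their `-σ`-th powers shows that there are at most `K X ^ σ B ^ (|C| R)` of
them. Since `A` is thick, `R ≥ κ log X`, and `log P ≤ R log X ≤ R² / κ`.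
-/

set_option autoImplicit false

namespace Pool.Agent.Results.MP_12a1af_nt.MultiplierGrowth

open Filter

open Classical in
/-- The number of ordered `h`-tuples of elements of `A` with sum `n`
(`Finset.Nat.antidiagonalTuple h n` is the set of all `v : Fin h → ℕ` with `∑ i, v i = n`). -/
noncomputable def reps (A : Set ℕ) (h n : ℕ) : ℕ :=
  ((Finset.Nat.antidiagonalTuple h n).filter (fun v => ∀ i, v i ∈ A)).card

/-- The multipliers of `A`: the integers `m` with `m A ⊆ A`. -/
def mult (A : Set ℕ) : Set ℕ := {m | ∀ a ∈ A, m * a ∈ A}

/-- `n` is a sum of `h` elements of `A`. -/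
def IsSum (A : Set ℕ) (h n : ℕ) : Prop := ∃ v : Fin h → ℕ, (∀ i, v i ∈ A) ∧ ∑ i, v i = n

/-- Let `h ≥ 2`, and let `A` be a set of positive integers which is contained in a finite union of
dilates of its set of multipliers (for instance: `A` is closed under multiplication). Suppose that

* every large integer is a sum of `h` elements of `A`,
* or, more generally, every large multiplier of `A` is a sum of `h` elements of `A`, and `A` has at
  least `X ^ δ` elements up to `X`, for some `δ > 0` and infinitely many `X`.

Then there is a constant `c > 0` such that the number of ordered representations of `n` as a sum of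
`h` elements of `A` is at least `c √(log n)` for infinitely many `n`. -/
theorem result (h : ℕ) (hh : 2 ≤ h) (A : Set ℕ) (h0 : 0 ∉ A) (C : Finset ℕ)
    (hC : ∀ a ∈ A, ∃ c ∈ C, ∃ m ∈ mult A, a = c * m) (n0 : ℕ)
    (hA : (∀ n, n0 ≤ n → IsSum A h n) ∨
      ((∀ m ∈ mult A, n0 ≤ m → IsSum A h m) ∧ ∃ δ : ℝ, 0 < δ ∧
        ∃ᶠ X : ℕ in atTop, (X : ℝ) ^ δ ≤ ((A ∩ Set.Icc 1 X).ncard : ℝ))) :
    ∃ c : ℝ, 0 < c ∧ ∃ᶠ n : ℕ in atTop, c * Real.sqrt (Real.log n) ≤ (reps A h n : ℝ) := by
  rcases hA with hb | ⟨hm, δ, hδ, hth⟩
  · have hne : A.Nonempty := by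
      obtain ⟨v, hv, -⟩ := hb n0 le_rfl
      exact ⟨_, hv ⟨0, by omega⟩⟩
    have hh' : (0 : ℝ) < h := by exact_mod_cast (by omega : 0 < h)
    exact Q17.ET.main hh h0 hne n0 C hC (fun m _ hmn => hb m hmn)
      (δ := 1 / (2 * h : ℝ)) (by positivity) (Q17.ET.thick_of_basis hh h0 hb).frequently
  · have hne : A.Nonempty := by
      by_contra hcon
      rw [Set.not_nonempty_iff_eq_empty] at hcon
      obtain ⟨X, hX, hX1⟩ := (hth.and_eventually (Filter.eventually_ge_atTop 1)).exists
      rw [hcon, Set.empty_inter, Set.ncard_empty, Nat.cast_zero] at hX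
      have hXr : (0 : ℝ) < X := by exact_mod_cast hX1
      have := Real.rpow_pos_of_pos hXr δ
      linarith
    exact Q17.ET.main hh h0 hne n0 C hC hm hδ hth

end Pool.Agent.Results.MP_12a1af_nt.MultiplierGrowth
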