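import Pool.Agent.Q123.ET.Density

/-!
# The Erdős–Turán problem: an energy inequality over all scales, and homogeneous sets

`rep A n` is the number of ordered pairs of elements of `A` with sum `n`, `cnt A x` the number of
elements of `A` less than `x`, and `Covered F L N` means that `F` is covered by `N` intervals
`[s, s + L)` (`s` an integer).

1. If `r_A(n) ≤ K` for all `n < 2 x` and `A ∩ [0, x)` is covered by `N_j` intervals of length
   `g ^ j` (`g ≥ 4`, `j < J`), then `A(x) ^ 2 ∑_{j < J} 1 / (g ^ j N_j ^ 2) ≤ 8 K`.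
2. So a set with `r_A ≤ K` and `A(x) ≥ c √x` is spread out on almost all scales: the number of the
   scales `g ^ j` on which `A ∩ [0, x)` is covered by at most `M √(x / g ^ j)` intervals of length
   `g ^ j` is at most `8 K M ^ 2 / c ^ 2`, for all `x` and `M`.
3. `A` is *homogeneous* if, for some `B` and all `1 ≤ L ≤ x`, `A ∩ [0, x)` is covered by
   `B · A(B ⌊x / L⌋)` intervals of length `L`. This holds if `A` is closed under division by some
   `g ≥ 2` up to a bounded error (for every `a ∈ A` there is `b ∈ A` with `|a - g b| ≤ D`); for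
   instance if `⌊a / g⌋ ∈ A` for all `a ∈ A` (the base `g` expansions form a language closed under
   prefixes).
4. If `A` is homogeneous and `A(x) ≥ c √x` for all large `x`, then for all large `x` some
   `n < 2 x` has `r_A(n) ≥ c' log x / log log x`.
5. So both questions of Erdős and Turán have a positive answer for homogeneous sets: if
   `r_A(n) ≥ 1` for all large `n`, or if `A` is infinite and `a_n ≤ C n ^ 2` for all `n ≥ 1`, then
   some `n < 2 x` has `r_A(n) ≥ c' log x / log log x`, for all large `x`, and `r_A` is unbounded.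

Method.  The number of pairs of elements of `A ∩ [0, x)` at distance less than `g ^ j` is at
least `A(x) ^ 2 / N_j`.  By a discrete Hardy inequality the sum over `j` of the squares of these
numbers, divided by `g ^ j`, is at most 8 times the additive energy, hence at most
`8 K A(x) ^ 2`.  For 4 the inequality is used for all `x = 4 ^ k` together (a discrete Gronwall
argument), since `A(x) / √x` may vary.
-/

namespace Pool.Agent.Results.MP_12a1af_nt.MultiscaleSets

open Finset Filter Q123.ET

/-- The growth statement: for all large `x` some `n < 2 x` has `r_A(n) ≥ c log x / log log x`. -/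
def LargeValues (A : Set ℕ) : Prop :=
  ∃ c : ℝ, 0 < c ∧ ∀ᶠ x : ℕ in atTop, ∃ n < 2 * x,
    c * Real.log x ≤ rep A n * Real.log (Real.log x)

lemma unbounded {A : Set ℕ} (h : LargeValues A) (r : ℕ) : ∃ n, r < rep A n := by
  obtain ⟨c, hc, h⟩ := h
  by_contra hcon
  push Not at hcon
  have hlog : Tendsto (fun x : ℕ => Real.log x) atTop atTop :=
    Real.tendsto_log_atTop.comp tendsto_natCast_atTop_atTop
  have hlo : ∀ᶠ X : ℝ in atTop, (r + 1) * Real.log X ≤ c / 2 * X := by
    have h := Real.isLittleO_log_id_atTop.bound (show (0 : ℝ) < c / (2 * (r + 1)) by positivity)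
    filter_upwards [h, eventually_ge_atTop 1] with X h1 h2
    rw [Real.norm_of_nonneg (Real.log_nonneg h2), id, Real.norm_of_nonneg (by linarith)] at h1
    calc ((r : ℝ) + 1) * Real.log X ≤ (r + 1) * (c / (2 * (r + 1)) * X) :=
          mul_le_mul_of_nonneg_left h1 (by positivity)
      _ = _ := by field_simp
  obtain ⟨x, h1, h2, h3⟩ := (h.and ((hlog.eventually hlo).and
    (hlog.eventually (eventually_ge_atTop 3)))).exists
  obtain ⟨n, _, hn⟩ := h1
  have h4 : 0 < Real.log (Real.log x) := Real.log_pos (by linarith)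
  have h5 : (rep A n : ℝ) ≤ r := by exact_mod_cast hcon n
  have h6 : (rep A n : ℝ) * Real.log (Real.log x) ≤ (r + 1) * Real.log (Real.log x) :=
    mul_le_mul_of_nonneg_right (by linarith) h4.le
  nlinarith

theorem result :
    -- 1. the inequality
    (∀ (A : Set ℕ) (g x J : ℕ) (K : ℝ) (N : ℕ → ℕ), 4 ≤ g → 1 ≤ x →
      (∀ n < 2 * x, (rep A n : ℝ) ≤ K) →
      (∀ j < J, Covered (A ∩ Set.Iio x) (g ^ j) (N j)) →
      (cnt A x : ℝ) ^ 2 * ∑ j ∈ range J, 1 / ((g : ℝ) ^ j * (N j : ℝ) ^ 2) ≤ 8 * K) ∧
    -- 2. there are few scales with few intervals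
    (∀ (A : Set ℕ) (g x J : ℕ) (K c M : ℝ), 4 ≤ g → 1 ≤ x → 0 < c → 0 < M →
      (∀ n < 2 * x, (rep A n : ℝ) ≤ K) → c * √x ≤ cnt A x →
      (({j : ℕ | j < J ∧ ∃ N : ℕ, Covered (A ∩ Set.Iio x) (g ^ j) N ∧
        (N : ℝ) ≤ M * √((x : ℝ) / (g : ℝ) ^ j)}.ncard : ℕ) : ℝ) ≤ 8 * K * M ^ 2 / c ^ 2) ∧
    -- 3. sets closed under division up to bounded errors are homogeneous
    (∀ (A : Set ℕ) (g : ℕ), 2 ≤ g → CoarselyClosed g A → Homogeneous A) ∧
    -- 4. large values for homogeneous sets
    (∀ A : Set ℕ, Homogeneous A → (∃ c : ℝ, 0 < c ∧ ∀ᶠ x : ℕ in atTop, c * √x ≤ cnt A x) →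
      LargeValues A) ∧
    -- 5. the two questions for homogeneous sets
    (∀ A : Set ℕ, Homogeneous A →
      ((∀ᶠ n in atTop, 1 ≤ rep A n) ∨
        (A.Infinite ∧ ∃ C : ℝ, ∀ n ≥ 1, (Nat.nth (· ∈ A) (n - 1) : ℝ) ≤ C * (n : ℝ) ^ 2)) →
      LargeValues A ∧ ∀ r : ℕ, ∃ n, r < rep A n) := by
  classical
  refine ⟨fun A g x J K N hg hx hK hN => scales hg A hx J K N hK hN, ?_,
    fun A g hg h => homogeneous_of_closed hg h, ?_, ?_⟩
  · intro A g x J K c M hg hx hc hM hK hA
    have h := few_scales hg A hx K c M hc hM hK hA J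
    refine le_trans (le_of_eq ?_) h
    rw [← Set.ncard_coe_finset]
    congr 2
    ext j
    simp
  · rintro A hA ⟨c, hc, hd⟩
    exact growth hA hc hd
  · intro A hA h
    have h1 : LargeValues A := by
      rcases h with h | ⟨hinf, C, hC⟩
      · exact growth hA (by norm_num) (density_of_basis h)
      · obtain ⟨c, hc, hd⟩ := density_of_nth hinf hC
        exact growth hA hc hd
    exact ⟨h1, unbounded h1⟩

end Pool.Agent.Results.MP_12a1af_nt.MultiscaleSets
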