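import Pool.Agent.Q152.SlowMain
import Pool.Agent.W167.ET.Bounded

/-!
# MP_12a1af_nt: slow random displacements of rigid pieces

Let `W` be nondecreasing and unbounded, growing as slowly as we like but regularly:
`W (x) ≤ C (x + 1)` and `W (2 x) ≤ C W (x)`.  Cut the natural numbers into intervals
`[N_s, N_(s+1))` of length `o (W (N_s))` and move all the elements of `A` in the `s`-th interval by
the same random amount `t_s ≤ w_s`, `w_s ≍ W (N_s)`; the pieces themselves stay rigid, although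
they may contain more and more elements.  If `limsup |A ∩ [1, n]| ^ 2 / n > 0` (in particular if
`a_n ≤ C n ^ 2`, the hypothesis of Q2, or if `A` is an asymptotic basis of order 2, the
hypothesis of Q1), then almost surely the new set has unbounded representation function.

Method (`Pool.Agent.Q152.SlowRigid`, `SlowScale`, `SlowMain`).  In infinitely many dyadic blocks
`[X, 2X)` the set has at least `c X ^ (1/2)` elements.  Put `V = W (X)`, `v = V ^ (1/2)`.  A piece
with more than `θ v` elements has, being short, many representations by itself.  If some interval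
of length `V` contains more than `v` elements of the block, we are in the situation of amplitudes
comparable to the size of the numbers, after a translation.  Otherwise all the windows of length
`V` are sparse; we freeze the shifts of half of the pieces and hit with the other pieces the
targets `n - b`, `b` frozen.  The total intensity is bounded below by counting pairs of pieces,
single intensities are small, and coincidences are rare because the windows are sparse.  The
different scales are independent.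
-/

set_option autoImplicit false

open MeasureTheory ProbabilityTheory Filter

namespace Pool.Agent.Results.MP_12a1af_nt.SlowRigidPieces

/-- `rep A n` is the number of ordered pairs of elements of `A` with sum `n`. -/
noncomputable def rep (A : Set ℕ) (n : ℕ) : ℕ :=
  Set.ncard {p : ℕ × ℕ | p.1 ∈ A ∧ p.2 ∈ A ∧ p.1 + p.2 = n}

/-- `A` is an asymptotic basis of order `2`. -/
def IsBasis (A : Set ℕ) : Prop :=
  ∃ N, ∀ n, N ≤ n → ∃ a ∈ A, ∃ b ∈ A, a + b = n

/-- `limsup |A ∩ [1, n]| ^ 2 / n > 0` -/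
def Thick (A : Set ℕ) : Prop :=
  ∃ c : ℝ, 0 < c ∧ ∃ᶠ n : ℕ in atTop, c * n ≤ ((A ∩ Set.Icc 1 n).ncard : ℝ) ^ 2

/-- the elements `a` of `A` with `N s ≤ a < N (s + 1)` are moved to `a + x s`, for all `s` -/
def moved (A : Set ℕ) (N : ℕ → ℕ) (x : ℕ → ℕ) : Set ℕ :=
  {v | ∃ s, ∃ a ∈ A, N s ≤ a ∧ a < N (s + 1) ∧ v = a + x s}

/-- The product of the uniform probability measures on `{0, …, w n}`. -/
noncomputable def unif (w : ℕ → ℕ) : Measure (∀ n, Fin (w n + 1)) :=
  Measure.infinitePi fun n => (PMF.uniformOfFintype (Fin (w n + 1))).toMeasure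

theorem thick_of_basis (A : Set ℕ) (hA : IsBasis A) : Thick A := by
  classical
  obtain ⟨n0, hn0⟩ := hA
  obtain ⟨hinf, hgrow⟩ := Pool.Agent.W167.ET.basis_growth A 2 n0 (by
    intro n hn
    obtain ⟨a, ha, b, hb, hab⟩ := hn0 n hn
    refine ⟨{a, b}, rfl, ?_, ?_⟩
    · intro x hx
      rw [Multiset.insert_eq_cons, Multiset.mem_cons, Multiset.mem_singleton] at hx
      rcases hx with rfl | rfl
      · exact ha
      · exact hb
    · rw [Multiset.insert_eq_cons, Multiset.sum_cons, Multiset.sum_singleton]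
      exact hab)
  refine ⟨1 / ((n0 + 1) * 3 ^ 2), by positivity, ?_⟩
  apply Eventually.frequently
  obtain ⟨a1, ha1, ha1'⟩ := (Set.infinite_iff_exists_gt.1 hinf) 0
  filter_upwards [eventually_ge_atTop a1] with n hn
  set m := (A ∩ Set.Icc 1 n).ncard with hm
  have hfin : (A ∩ Set.Icc 1 n).Finite := (Set.finite_Icc 1 n).subset Set.inter_subset_right
  have hm1 : 1 ≤ m := by
    rw [hm, Nat.one_le_iff_ne_zero, ← Nat.pos_iff_ne_zero, Set.ncard_pos hfin]
    exact ⟨a1, ha1, ha1', hn⟩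
  have hcount : Nat.count (· ∈ A) (n + 1) ≤ m + 1 := by
    rw [Nat.count_eq_card_filter_range]
    have h1 : (((Finset.range (n + 1)).filter (· ∈ A) : Finset ℕ) : Set ℕ) ⊆
        insert 0 (A ∩ Set.Icc 1 n) := by
      intro a ha
      rw [Finset.mem_coe, Finset.mem_filter, Finset.mem_range] at ha
      rcases Nat.eq_zero_or_pos a with h0 | h0
      · left; exact h0
      · right; exact ⟨ha.2, h0, by omega⟩
    have h2 := Set.ncard_le_ncard h1 (hfin.insert 0)
    rw [Set.ncard_coe_finset] at h2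
    exact h2.trans (Set.ncard_insert_le _ _)
  have hnth : n + 1 ≤ Nat.nth (· ∈ A) (Nat.count (· ∈ A) (n + 1)) :=
    Nat.le_nth_count (p := (· ∈ A)) hinf (n + 1)
  have h3 := hgrow (Nat.count (· ∈ A) (n + 1))
  have h4 : (Nat.count (· ∈ A) (n + 1) + 1) ^ 2 ≤ (3 * m) ^ 2 :=
    Nat.pow_le_pow_left (by omega) 2
  have h5 : n ≤ (n0 + 1) * (3 * m) ^ 2 := by
    have h6 := Nat.mul_le_mul_left (n0 + 1) h4
    omega
  have h6 : (n : ℝ) ≤ (n0 + 1) * (3 * m) ^ 2 := by exact_mod_cast h5
  rw [div_mul_eq_mul_div, one_mul, div_le_iff₀ (by positivity)]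
  rw [mul_pow] at h6
  linarith

theorem slow {Ω : Type*} [MeasurableSpace Ω] {μ : Measure Ω} {w : ℕ → ℕ} {B : ℝ} {t : ℕ → Ω → ℕ}
    (hP : Pool.Agent.W167.ET.Pert μ w B t) (A : Set ℕ) (hA : Thick A) (W : ℕ → ℕ) (C : ℕ)
    (hWm : Monotone W) (hWi : ∀ b, ∃ x, b ≤ W x) (hWC : ∀ x, W x ≤ C * (x + 1))
    (hWd : ∀ x, 1 ≤ x → W (2 * x) ≤ C * W x) (N : ℕ → ℕ) (hN0 : N 0 = 0) (hN : StrictMono N)
    (hN1 : Tendsto (fun s => ((N (s + 1) : ℝ) - N s) / W (N s)) atTop (nhds 0))
    (hw1 : ∀ s, W (N s) ≤ C * (w s + 1)) (hw2 : ∀ s, w s ≤ C * W (N s)) :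
    ∀ᵐ ω ∂μ, ∀ K, ∃ m, K ≤ rep (moved A N fun s => t s ω) m := by
  obtain ⟨c, hc, hA'⟩ := hA
  have hC : 1 ≤ C := by
    rcases Nat.eq_zero_or_pos C with h | h
    · exfalso
      subst h
      obtain ⟨x, hx⟩ := hWi 1
      have := hWC x
      omega
    · exact h
  have hWi' : Tendsto W atTop atTop := tendsto_atTop_atTop_of_monotone hWm hWi
  filter_upwards [Pool.Agent.Q152.SlowRigid.slow_rigid hP C C hC hC A c hc hA' W hWm hWi' hWC hWd N
    hN0 hN hN1 hw1 hw2] with ω hω K
  obtain ⟨m, hm⟩ := hω K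
  exact ⟨m, hm.trans (Pool.Agent.W167.ET.r_le_rep _ m)⟩

theorem result :
    ∀ A : Set ℕ, (Thick A ∨ IsBasis A) →
    ∀ (W : ℕ → ℕ) (C : ℕ), Monotone W → (∀ b, ∃ x, b ≤ W x) → (∀ x, W x ≤ C * (x + 1)) →
      (∀ x, 1 ≤ x → W (2 * x) ≤ C * W x) →
    ∀ N : ℕ → ℕ, N 0 = 0 → StrictMono N →
      Tendsto (fun s => ((N (s + 1) : ℝ) - N s) / W (N s)) atTop (nhds 0) →
    ∀ w : ℕ → ℕ, (∀ s, W (N s) ≤ C * (w s + 1)) → (∀ s, w s ≤ C * W (N s)) →
    (∀ (Ω : Type) (_ : MeasurableSpace Ω) (μ : Measure Ω) (t : ℕ → Ω → ℕ) (B : ℝ),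
        iIndepFun t μ → (∀ s, Measurable (t s)) → (∀ s ω, t s ω ≤ w s) →
        (∀ s j, μ.real {ω | t s ω = j} ≤ B / (w s + 1)) →
        ∀ᵐ ω ∂μ, ∀ K, ∃ m, K ≤ rep (moved A N fun s => t s ω) m) ∧
      (∀ᵐ x ∂(unif w), ∀ K, ∃ m, K ≤ rep (moved A N fun s => (x s : ℕ)) m) := by
  intro A hA W C hWm hWi hWC hWd N hN0 hN hN1 w hw1 hw2
  have hT : Thick A := by
    rcases hA with hA | hA
    · exact hA
    · exact thick_of_basis A hA
  refine ⟨?_, ?_⟩
  · intro Ω _ μ t B h1 h2 h3 h4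
    exact slow (B := B) ⟨h1, h2, h3, h4⟩ A hT W C hWm hWi hWC hWd N hN0 hN hN1 hw1 hw2
  · exact slow (Pool.Agent.W167.ET.pert_unif w) A hT W C hWm hWi hWC hWd N hN0 hN hN1 hw1 hw2

end Pool.Agent.Results.MP_12a1af_nt.SlowRigidPieces
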