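import Mathlib
import Pool.Agent.Q247.ET.Inf

/-!
# The Erdős–Turán problem (MP_12a1af_nt), Q2 for thin sets of square-like integers: optimal order

`rep A s` is the number `r_A(s)` of ordered pairs `(a, b) ∈ A × A` with `a + b = s`, and
`psi x = log x / log log x`.

1. For every large `x`: let `A` be any set of natural numbers whose elements up to `x` lie within
   `G = exp (psi x / 2500)` of the union of at most `G` sequences `α n² + β` (`α ≥ 1 / G`, `β` real).
   If `A` has at least `√x / G` elements up to `x`, then `r_A(s) ≥ G` for some `s ≤ 2 x`.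
2. Let `A` be infinite, with this property for all large `x`, and `a_n ≤ n² exp (psi n / 5000)` for
   infinitely many `n` (for instance `a_n ≤ C n²` for all `n`, the hypothesis of Q2). Then
   `r_A(s) ≥ exp (psi s / 5000)` for infinitely many `s`.
3. In particular this holds if the elements of `A` are of the form `a = k m²` with
   `k ≤ exp (psi a / 5000)`, that is, if their squarefree parts are small.

By 1 a set of squares up to `x` with `r_A < exp (c psi x)`, for instance a `B_2[g]` set, has less than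
`√x exp (-c psi x)` elements. The order of magnitude of `log r_A(s)` is the best possible one: for
the set of all squares `r_A(s) ≤ exp (C psi s)` for all large `s`, by the divisor bound.

Method: let `P` be a set of about `psi x / 8` primes `p ≡ 1 (mod 4)`. The squares occupy
`q_p = (p + 1) / 2` residue classes modulo `p`, and this set of classes is symmetric. A reverse
hypercontractive inequality (for `u, v ≥ 0` on the classes, `3 / 4 E u² E v² + 1 / 4 E u(y)² v(-y)²`
is at least `(E u)² (E v)²`; it tensorizes) gives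
`∑_{n, m ∈ S} ∏_{p ∈ P} (3 / 4 + [p ∣ n² + m²] q_p / 4) ≥ |S|⁴ / (4 X²) ∏ (p / (p + 1))²` for every
`S ⊆ [1, X]`, while the left side is at most `max r` times
`∑_{k ≤ 2 X²} ∏ (3 / 4 + [p ∣ k] q_p / 4) ≈ 2 X² (7 / 8) ^ |P|`.
-/

set_option autoImplicit false

namespace Pool.Agent.Results.MP_12a1af_nt.SquareLikeSets

open Filter Real

/-- The number of ordered representations of `s` as a sum of two elements of `A`. -/
noncomputable def rep (A : Set ℕ) (s : ℕ) : ℕ :=
  {p : ℕ × ℕ | p.1 ∈ A ∧ p.2 ∈ A ∧ p.1 + p.2 = s}.ncard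

/-- `log x / log log x`. -/
noncomputable def psi (x : ℝ) : ℝ := log x / log (log x)

/-- The elements of `A` up to `x` lie within `G` of at most `G` sequences `α n² + β`, `α ≥ 1 / G`. -/
def SquareLike (A : Set ℕ) (x : ℕ) (G : ℝ) : Prop :=
  ∃ F : Finset (ℝ × ℝ), (F.card : ℝ) ≤ G ∧ (∀ f ∈ F, G⁻¹ ≤ f.1) ∧
    ∀ a ∈ A, a ≤ x → ∃ f ∈ F, ∃ n : ℕ, |(a : ℝ) - (f.1 * n ^ 2 + f.2)| ≤ G

theorem result :
    (∀ᶠ x : ℕ in atTop, ∀ A : Set ℕ, SquareLike A x (exp (psi x / 2500)) →
      sqrt x / exp (psi x / 2500) ≤ ({a : ℕ | a ∈ A ∧ a ≤ x}.ncard : ℝ) →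
      ∃ s : ℕ, s ≤ 2 * x ∧ exp (psi x / 2500) ≤ rep A s) ∧
    (∀ A : Set ℕ, A.Infinite → (∀ᶠ x : ℕ in atTop, SquareLike A x (exp (psi x / 2500))) →
      (∃ᶠ n : ℕ in atTop, (Nat.nth (· ∈ A) (n - 1) : ℝ) ≤ n ^ 2 * exp (psi n / 5000)) →
      ∃ᶠ s : ℕ in atTop, exp (psi s / 5000) ≤ rep A s) ∧
    (∀ A : Set ℕ, A.Infinite →
      (∀ a ∈ A, 16 ≤ a → ∃ k m : ℕ, a = k * m ^ 2 ∧ (k : ℝ) ≤ exp (psi a / 5000)) →
      (∃ᶠ n : ℕ in atTop, (Nat.nth (· ∈ A) (n - 1) : ℝ) ≤ n ^ 2 * exp (psi n / 5000)) →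
      ∃ᶠ s : ℕ in atTop, exp (psi s / 5000) ≤ rep A s) := by
  have e1 : ∀ x : ℝ, psi x / 2500 = 1 / 2500 * Pool.Agent.Q247.ET.ps x := fun x => by
    rw [psi, Pool.Agent.Q247.ET.ps]; ring
  have e2 : ∀ x : ℝ, psi x / 5000 = 1 / 5000 * Pool.Agent.Q247.ET.ps x := fun x => by
    rw [psi, Pool.Agent.Q247.ET.ps]; ring
  have h2 : ∀ A : Set ℕ, A.Infinite →
      (∀ᶠ x : ℕ in atTop, SquareLike A x (exp (psi x / 2500))) →
      (∃ᶠ n : ℕ in atTop, (Nat.nth (· ∈ A) (n - 1) : ℝ) ≤ n ^ 2 * exp (psi n / 5000)) →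
      ∃ᶠ s : ℕ in atTop, exp (psi s / 5000) ≤ rep A s := by
    intro A hA h1 h2
    simp only [e1] at h1
    simp only [e2] at h2 ⊢
    exact Pool.Agent.Q247.ET.inf_main A hA h1 h2
  refine ⟨?_, h2, ?_⟩
  · filter_upwards [Pool.Agent.Q247.ET.many_seq] with x hx A hA hcount
    obtain ⟨F, hF1, hF2, hF3⟩ := hA
    rw [e1] at hF1 hF2 hF3 hcount ⊢
    refine hx A F hF1 hF2 hF3 ?_
    rw [exp_neg, ← div_eq_mul_inv]
    exact hcount
  · intro A hA hform hgrow
    refine h2 A hA ?_ hgrow
    have hexp : ∀ᶠ x : ℕ in atTop,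
        exp (1 / 5000 * Pool.Agent.Q247.ET.ps x) + 16 ≤
          exp (1 / 2500 * Pool.Agent.Q247.ET.ps x) := by
      filter_upwards [Pool.Agent.Q247.ET.tend_ps.eventually (eventually_ge_atTop (5000 * 17 : ℝ))]
        with x hx
      set v := exp (1 / 5000 * Pool.Agent.Q247.ET.ps x) with hv
      have h3 : exp (1 / 2500 * Pool.Agent.Q247.ET.ps x) = v ^ 2 := by
        rw [hv, ← exp_nat_mul]
        congr 1
        push_cast
        ring
      have h4 : 17 ≤ v := by
        have := add_one_le_exp (1 / 5000 * Pool.Agent.Q247.ET.ps x)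
        linarith
      rw [h3]
      nlinarith
    filter_upwards [Pool.Agent.Q247.ET.ps_mono, hexp] with x hx1 hx2
    rw [e1]
    set G := exp (1 / 2500 * Pool.Agent.Q247.ET.ps x) with hG
    have hv0 : 0 < exp (1 / 5000 * Pool.Agent.Q247.ET.ps x) := exp_pos _
    have hG1 : 1 ≤ G := by linarith
    have hGinv : G⁻¹ ≤ 1 := inv_le_one_of_one_le₀ hG1
    refine ⟨(Finset.Icc 1 (⌊exp (1 / 5000 * Pool.Agent.Q247.ET.ps x)⌋₊ + 16)).image
      (fun k : ℕ => ((k : ℝ), (0 : ℝ))), ?_, ?_, ?_⟩
    · have h3 : (((Finset.Icc 1 (⌊exp (1 / 5000 * Pool.Agent.Q247.ET.ps x)⌋₊ + 16)).image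
          (fun k : ℕ => ((k : ℝ), (0 : ℝ)))).card : ℝ) ≤
          ((⌊exp (1 / 5000 * Pool.Agent.Q247.ET.ps x)⌋₊ + 16 : ℕ) : ℝ) := by
        rw [Nat.cast_le]
        exact Finset.card_image_le.trans (by simp)
      refine h3.trans ?_
      push_cast
      have := Nat.floor_le hv0.le
      linarith
    · intro f hf
      rw [Finset.mem_image] at hf
      obtain ⟨k, hk, rfl⟩ := hf
      rw [Finset.mem_Icc] at hk
      refine hGinv.trans ?_
      simp only
      exact_mod_cast hk.1
    · intro a ha hax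
      by_cases h16 : 16 ≤ a
      · obtain ⟨k, m, rfl, hk⟩ := hform a ha h16
        have hk0 : 1 ≤ k := by
          rcases Nat.eq_zero_or_pos k with h | h
          · subst h
            simp at h16
          · exact h
        have hkx : (k : ℝ) ≤ exp (1 / 5000 * Pool.Agent.Q247.ET.ps x) := by
          rw [e2] at hk
          refine hk.trans (exp_le_exp.mpr ?_)
          exact mul_le_mul_of_nonneg_left (hx1 _ hax) (by norm_num)
        refine ⟨((k : ℝ), 0), ?_, m, ?_⟩
        · rw [Finset.mem_image]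
          refine ⟨k, Finset.mem_Icc.mpr ⟨hk0, ?_⟩, rfl⟩
          exact (Nat.le_floor hkx).trans (Nat.le_add_right _ _)
        · simp only
          push_cast
          rw [add_zero, sub_self, abs_zero]
          linarith
      · rcases Nat.eq_zero_or_pos a with h | h
        · refine ⟨(((1 : ℕ) : ℝ), 0), ?_, 0, ?_⟩
          · rw [Finset.mem_image]
            exact ⟨1, Finset.mem_Icc.mpr ⟨le_rfl, by omega⟩, rfl⟩
          · subst h
            simp only
            norm_num
            linarith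
        · refine ⟨((a : ℝ), 0), ?_, 1, ?_⟩
          · rw [Finset.mem_image]
            exact ⟨a, Finset.mem_Icc.mpr ⟨h, by omega⟩, rfl⟩
          · simp only
            norm_num
            linarith

end Pool.Agent.Results.MP_12a1af_nt.SquareLikeSets
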